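import Pool.Agent.helper21.UB.Spec

set_option autoImplicit false

open Quaternion Polynomial

namespace Pool.Agent.helper21.UB

/-- The backward direction. -/
theorem INK_back {K : Type} [Field K] [NumberField K] (s : K) (k : ℕ) (a b : ℚ) (hs : s ^ 2 = -(k : K)) (t n : ℤ)
    (h1 : 2 * a = t) (h2 : a ^ 2 + k * b ^ 2 = n) :
    IsIntegral ℤ (algebraMap ℚ K a + algebraMap ℚ K b * s) := by
  refine ⟨X ^ 2 - C t * X + C n, ?_, ?_⟩
  · have : (X ^ 2 - C t * X + C n : ℤ[X]) = X ^ 2 + (- C t * X + C n) := by ring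
    rw [this]
    apply Polynomial.monic_X_pow_add
    compute_degree
    all_goals norm_num
  · have e1 : (2 : K) * algebraMap ℚ K a = (t : K) := by
      have := congrArg (algebraMap ℚ K) h1
      simpa using this
    have e2 : (algebraMap ℚ K a) ^ 2 + (k : K) * (algebraMap ℚ K b) ^ 2 = (n : K) := by
      have := congrArg (algebraMap ℚ K) h2
      simpa using this
    simp only [eval₂_add, eval₂_sub, eval₂_pow, eval₂_X, eval₂_mul, eval₂_C]
    have e3 : (algebraMap ℤ K) t = (t : K) := by simp
    have e4 : (algebraMap ℤ K) n = (n : K) := by simp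
    rw [e3, e4, ← e1, ← e2]
    linear_combination (algebraMap ℚ K b) ^ 2 * hs

theorem INK_c1 (u v : ℚ) : (C u * X + C v : ℚ[X]).coeff 1 = u := by
  simp [coeff_C]

theorem INK_c0 (u v : ℚ) : (C u * X + C v : ℚ[X]).coeff 0 = v := by
  simp

theorem INK_fwd {K : Type} [Field K] [NumberField K] (s : K) (k : ℕ) (a b : ℚ) (hk : 1 ≤ k) (hs : s ^ 2 = -(k : K))
    (hi : IsIntegral ℤ (algebraMap ℚ K a + algebraMap ℚ K b * s)) :
    ∃ t n : ℤ, 2 * a = t ∧ a ^ 2 + k * b ^ 2 = n := by
  by_cases hb : b = 0
  · subst hb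
    rw [map_zero, zero_mul, add_zero] at hi
    have h1 : IsIntegral ℤ a := (isIntegral_algebraMap_iff (algebraMap ℚ K).injective).mp hi
    obtain ⟨m, hm⟩ := IsIntegrallyClosed.isIntegral_iff.mp h1
    refine ⟨2 * m, m ^ 2, ?_, ?_⟩
    · rw [← hm]; simp
    · rw [← hm]; simp
  · set β : K := algebraMap ℚ K a + algebraMap ℚ K b * s with hβ
    have hmin : minpoly ℚ β = X ^ 2 + (C (-(2 * a)) * X + C (a ^ 2 + k * b ^ 2)) := by
      have hdeg : (C (-(2 * a)) * X + C (a ^ 2 + k * b ^ 2) : ℚ[X]).degree < 2 := by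
        have := Polynomial.degree_linear_le (a := -(2 * a)) (b := a ^ 2 + (k : ℚ) * b ^ 2)
        exact lt_of_le_of_lt this (by norm_num)
      have hmon : (X ^ 2 + (C (-(2 * a)) * X + C (a ^ 2 + k * b ^ 2)) : ℚ[X]).Monic :=
        Polynomial.monic_X_pow_add hdeg
      have hnd : (X ^ 2 + (C (-(2 * a)) * X + C (a ^ 2 + k * b ^ 2)) : ℚ[X]).natDegree = 2 :=
        Polynomial.natDegree_eq_of_degree_eq_some (by
          rw [Polynomial.degree_add_eq_left_of_degree_lt]
          · simp
          · rw [Polynomial.degree_X_pow]; exact hdeg)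
      symm
      apply minpoly.eq_of_irreducible_of_monic _ _ hmon
      · rw [Polynomial.Monic.irreducible_iff_roots_eq_zero_of_degree_le_three hmon (by omega) (by omega)]
        rw [Multiset.eq_zero_iff_forall_notMem]
        intro r hr
        rw [Polynomial.mem_roots hmon.ne_zero, Polynomial.IsRoot.def] at hr
        simp only [eval_add, eval_pow, eval_X, eval_mul, eval_C] at hr
        have h3 : (r - a) ^ 2 + k * b ^ 2 = 0 := by linear_combination hr
        have hk' : (0 : ℚ) < k := by exact_mod_cast hk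
        have h4 : 0 < (k : ℚ) * b ^ 2 := by positivity
        nlinarith [sq_nonneg (r - a)]
      · simp only [map_add, map_pow, aeval_X, map_mul, aeval_C, map_neg]
        rw [hβ]
        have : (algebraMap ℚ K) (2 : ℚ) = 2 := by simp
        rw [this]
        have h5 : (algebraMap ℚ K) (k : ℚ) = (k : K) := by simp
        rw [h5]
        linear_combination (algebraMap ℚ K b) ^ 2 * hs
    have hf := minpoly.isIntegrallyClosed_eq_field_fractions' ℚ hi
    have c0 := congrArg (fun q => Polynomial.coeff q 0) hf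
    have c1 := congrArg (fun q => Polynomial.coeff q 1) hf
    simp only [hmin, Polynomial.coeff_map] at c0 c1
    refine ⟨-(minpoly ℤ β).coeff 1, (minpoly ℤ β).coeff 0, ?_, ?_⟩
    · rw [coeff_add, coeff_X_pow, INK_c1] at c1
      simp only [OfNat.one_ne_ofNat, if_false, zero_add] at c1
      push_cast
      simp only [eq_intCast] at c1
      linarith
    · rw [coeff_add, coeff_X_pow, INK_c0] at c0
      simp only [OfNat.zero_ne_ofNat, if_false, zero_add, eq_intCast] at c0
      exact c0

theorem INK : INK_stmt := by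
  intro K _ _ s k a b hk hs
  constructor
  · exact INK_fwd s k a b hk hs
  · rintro ⟨t, n, h1, h2⟩
    exact INK_back s k a b hs t n h1 h2

end Pool.Agent.helper21.UB
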